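import Mathlib

/-!
A closure space of semilattice type whose clopen sets form a lattice although some regular closed
set is not clopen.
-/

namespace Pool.Agent.Results.MP_df2171_co.NotReg

/-- closure operators with `φ ∅ = ∅` -/
def IsClosureSpace {P : Type} (φ : Set P → Set P) : Prop :=
  (∀ a, a ⊆ φ a) ∧ (∀ a b, a ⊆ b → φ a ⊆ φ b) ∧ (∀ a, φ (φ a) = φ a) ∧ φ ∅ = ∅

/-- algebraic closure operators -/
def Algebraic {P : Type} (φ : Set P → Set P) : Prop :=
  ∀ x, φ x = ⋃ y ∈ {y : Set P | y ⊆ x ∧ y.Finite}, φ y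

/-- semilattice type: for some order, a minimal covering of `p` has join `p` -/
def SemilatticeType {P : Type} (φ : Set P → Set P) : Prop :=
  Algebraic φ ∧ ∃ _ : PartialOrder P, ∀ (p : P) (x : Set P),
    Minimal (fun y => p ∈ φ y) x → IsLUB x p

/-- clopen sets -/
def Clop {P : Type} (φ : Set P → Set P) : Set (Set P) := {a | φ a = a ∧ φ aᶜ = aᶜ}

/-- regular closed sets -/
def Reg {P : Type} (φ : Set P → Set P) : Set (Set P) := {a | a = φ (φ aᶜ)ᶜ}

/-- a family of sets, ordered by inclusion, is a lattice -/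
def IsLattice {P : Type} (C : Set (Set P)) : Prop :=
  ∀ a b : C, (∃ j : C, IsLUB {a, b} j) ∧ ∃ m : C, IsGLB {a, b} m

inductive K | al | be | A | B | T
  deriving DecidableEq

open K

abbrev P := K × ℕ

/-- the implications `x, y ⊢ p` -/
inductive Imp : P → P → P → Prop
  | t1 n : Imp (A, n) (be, n) (T, n)
  | t2 n : Imp (al, n) (B, n) (T, n)
  | a1 n : Imp (al, n) (A, n + 1) (A, n)
  | a2 n : Imp (al, n) (be, n + 1) (A, n)
  | b1 n : Imp (be, n) (al, n + 1) (B, n)
  | b2 n : Imp (be, n) (B, n + 1) (B, n)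

inductive Cl (u : Set P) : P → Prop
  | base p : p ∈ u → Cl u p
  | step x y p : Imp x y p → Cl u x → Cl u y → Cl u p

def cl (u : Set P) : Set P := {p | Cl u p}

def le0 : K → K → Prop
  | al, al | al, A | al, T | be, be | be, B | be, T | A, A | A, T | B, B | B, T | T, T => True
  | _, _ => False

def up : K → Prop
  | al | be => False
  | _ => True

def ord : PartialOrder P where
  le p q := (p.2 = q.2 ∧ le0 p.1 q.1) ∨ (q.2 < p.2 ∧ up q.1)
  le_refl p := by obtain ⟨k, n⟩ := p; cases k <;> simp [le0]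
  le_trans p q r := by
    obtain ⟨k, n⟩ := p; obtain ⟨l, m⟩ := q; obtain ⟨j, i⟩ := r
    cases k <;> cases l <;> cases j <;> simp [le0, up] <;> omega
  le_antisymm p q := by
    obtain ⟨k, n⟩ := p; obtain ⟨l, m⟩ := q
    cases k <;> cases l <;> simp [le0, up] <;> omega

theorem ord_le (p q : P) :
    ord.le p q ↔ (p.2 = q.2 ∧ le0 p.1 q.1) ∨ (q.2 < p.2 ∧ up q.1) := Iff.rfl

theorem imp_lub {x y p : P} (h : Imp x y p) :
    ord.le x p ∧ ord.le y p ∧ ∀ q, ord.le x q → ord.le y q → ord.le p q := by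
  cases h <;> refine ⟨by simp [ord_le, le0, up], by simp [ord_le, le0, up], ?_⟩ <;>
    rintro ⟨l, m⟩ <;> cases l <;> simp [ord_le, le0, up] <;> omega

theorem mono {u v : Set P} (h : u ⊆ v) {p : P} (hp : Cl u p) : Cl v p := by
  induction hp with
  | base p hp => exact .base p (h hp)
  | step x y p hi _ _ h1 h2 => exact .step x y p hi h1 h2

theorem idem {u : Set P} {p : P} (hp : Cl (cl u) p) : Cl u p := by
  induction hp with
  | base p hp => exact hp
  | step x y p hi _ _ h1 h2 => exact .step x y p hi h1 h2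

theorem fin {u : Set P} {p : P} (hp : Cl u p) : ∃ y, y ⊆ u ∧ y.Finite ∧ Cl y p ∧
    (∀ z ∈ y, ord.le z p) ∧ ∀ q, (∀ z ∈ y, ord.le z q) → ord.le p q := by
  induction hp with
  | base p hp =>
    exact ⟨{p}, by simpa, Set.finite_singleton p, .base p rfl,
      by rintro z rfl; exact ord.le_refl _, fun q h => h p rfl⟩
  | step x y p hi _ _ h1 h2 =>
    obtain ⟨s, s1, s2, s3, s4, s5⟩ := h1
    obtain ⟨t, t1, t2, t3, t4, t5⟩ := h2
    obtain ⟨i1, i2, i3⟩ := imp_lub hi
    refine ⟨s ∪ t, Set.union_subset s1 t1, s2.union t2,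
      .step x y p hi (mono Set.subset_union_left s3) (mono Set.subset_union_right t3), ?_, ?_⟩
    · rintro z (hz | hz)
      · exact ord.le_trans _ _ _ (s4 z hz) i1
      · exact ord.le_trans _ _ _ (t4 z hz) i2
    · intro q h
      exact i3 q (s5 q fun z hz => h z (Or.inl hz)) (t5 q fun z hz => h z (Or.inr hz))

theorem closed_iff (a : Set P) : cl a = a ↔ ∀ x y p, Imp x y p → x ∈ a → y ∈ a → p ∈ a := by
  constructor
  · intro h x y p hi hx hy
    rw [← h]; exact Cl.step x y p hi (.base x hx) (.base y hy)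
  · intro h
    refine Set.Subset.antisymm (fun p hp => ?_) fun p hp => .base p hp
    induction hp with
    | base p hp => exact hp
    | step x y p hi _ _ h1 h2 => exact h x y p hi h1 h2

theorem cl_cases {u : Set P} {p : P} (hp : Cl u p) :
    p ∈ u ∨ ∃ x y, Imp x y p ∧ Cl u x ∧ Cl u y := by
  cases hp with
  | base _ hp => exact Or.inl hp
  | step x y _ hi h1 h2 => exact Or.inr ⟨x, y, hi, h1, h2⟩

theorem keyA {a : Set P} (ha : a ∈ Clop cl) {n : ℕ} (h : (A, n) ∈ a) (h' : (al, n) ∉ a) :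
    (al, n + 1) ∈ a ∨ (B, n + 1) ∈ a := by
  have c := (closed_iff a).1 ha.1
  have o := (closed_iff aᶜ).1 ha.2
  by_contra hc
  push Not at hc
  have h1 : (A, n + 1) ∈ a := by
    by_contra h1; exact o _ _ _ (.a1 n) h' h1 h
  have h2 : (be, n + 1) ∈ a := by
    by_contra h2; exact o _ _ _ (.a2 n) h' h2 h
  exact o _ _ _ (.t2 (n + 1)) hc.1 hc.2 (c _ _ _ (.t1 (n + 1)) h1 h2)

theorem keyB {a : Set P} (ha : a ∈ Clop cl) {n : ℕ} (h : (B, n) ∈ a) (h' : (be, n) ∉ a) :
    (A, n + 1) ∈ a ∨ (be, n + 1) ∈ a := by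
  have c := (closed_iff a).1 ha.1
  have o := (closed_iff aᶜ).1 ha.2
  by_contra hc
  push Not at hc
  have h1 : (al, n + 1) ∈ a := by
    by_contra h1; exact o _ _ _ (.b1 n) h' h1 h
  have h2 : (B, n + 1) ∈ a := by
    by_contra h2; exact o _ _ _ (.b2 n) h' h2 h
  exact o _ _ _ (.t1 (n + 1)) hc.1 hc.2 (c _ _ _ (.t2 (n + 1)) h1 h2)

theorem join_clop {a b : Set P} (ha : a ∈ Clop cl) (hb : b ∈ Clop cl) :
    cl (a ∪ b) ∈ Clop cl := by
  refine ⟨Set.Subset.antisymm (fun p hp => idem hp) fun p hp => .base p hp, ?_⟩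
  rw [closed_iff]
  intro x y p hi hx hy hp
  have hx' : ¬ Cl (a ∪ b) x := hx
  have hy' : ¬ Cl (a ∪ b) y := hy
  have na : ∀ {z}, ¬ Cl (a ∪ b) z → z ∉ a := fun h hz => h (.base _ (Or.inl hz))
  have nb : ∀ {z}, ¬ Cl (a ∪ b) z → z ∉ b := fun h hz => h (.base _ (Or.inr hz))
  rcases cl_cases hp with (h | h) | ⟨x', y', hi', h1, h2⟩
  · exact (closed_iff aᶜ).1 ha.2 x y p hi (na hx') (na hy') h
  · exact (closed_iff bᶜ).1 hb.2 x y p hi (nb hx') (nb hy') h
  · cases hi with
    | t1 n =>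
      cases hi' with
      | t1 => exact hx' h1
      | t2 =>
        have : Cl (a ∪ b) (A, n + 1) ∨ Cl (a ∪ b) (be, n + 1) := by
          rcases cl_cases h2 with (h | h) | ⟨x'', y'', hi'', h3, -⟩
          · exact (keyB ha h (na hy')).imp (fun h => .base _ (Or.inl h))
              fun h => .base _ (Or.inl h)
          · exact (keyB hb h (nb hy')).imp (fun h => .base _ (Or.inr h))
              fun h => .base _ (Or.inr h)
          · cases hi'' <;> exact absurd h3 hy'
        rcases this with h | h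
        · exact hx' (.step _ _ _ (.a1 n) h1 h)
        · exact hx' (.step _ _ _ (.a2 n) h1 h)
    | t2 n =>
      cases hi' with
      | t2 => exact hx' h1
      | t1 =>
        have : Cl (a ∪ b) (al, n + 1) ∨ Cl (a ∪ b) (B, n + 1) := by
          rcases cl_cases h1 with (h | h) | ⟨x'', y'', hi'', h3, -⟩
          · exact (keyA ha h (na hx')).imp (fun h => .base _ (Or.inl h))
              fun h => .base _ (Or.inl h)
          · exact (keyA hb h (nb hx')).imp (fun h => .base _ (Or.inr h))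
              fun h => .base _ (Or.inr h)
          · cases hi'' <;> exact absurd h3 hx'
        rcases this with h | h
        · exact hy' (.step _ _ _ (.b1 n) h2 h)
        · exact hy' (.step _ _ _ (.b2 n) h2 h)
    | a1 n => cases hi' <;> exact hx' h1
    | a2 n => cases hi' <;> exact hx' h1
    | b1 n => cases hi' <;> exact hx' h1
    | b2 n => cases hi' <;> exact hx' h1

theorem compl_clop {a : Set P} (ha : a ∈ Clop cl) : aᶜ ∈ Clop cl :=
  ⟨ha.2, by rw [compl_compl]; exact ha.1⟩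

theorem join_le {a b c : Set P} (hc : c ∈ Clop cl) (h1 : a ⊆ c) (h2 : b ⊆ c) :
    cl (a ∪ b) ⊆ c := fun _ hp => by
  rw [← hc.1]; exact mono (Set.union_subset h1 h2) hp

theorem lattice : IsLattice (Clop cl) := by
  rintro ⟨a, ha⟩ ⟨b, hb⟩
  refine ⟨⟨⟨_, join_clop ha hb⟩, ?_, ?_⟩,
    ⟨⟨_, compl_clop (join_clop (compl_clop ha) (compl_clop hb))⟩, ?_, ?_⟩⟩
  · rintro _ (rfl | rfl)
    · exact fun p hp => Cl.base p (Or.inl hp)
    · exact fun p hp => Cl.base p (Or.inr hp)
  · rintro ⟨c, hc⟩ h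
    exact join_le hc (h (Or.inl rfl)) (h (Or.inr rfl))
  · rintro _ (rfl | rfl)
    · exact fun p hp => by_contra fun h => hp (Cl.base p (Or.inl h))
    · exact fun p hp => by_contra fun h => hp (Cl.base p (Or.inr h))
  · rintro ⟨c, hc⟩ h
    have h1 : c ⊆ a := h (Or.inl rfl)
    have h2 : c ⊆ b := h (Or.inr rfl)
    exact Set.subset_compl_comm.1 (join_le (compl_clop hc) (Set.compl_subset_compl.2 h1)
      (Set.compl_subset_compl.2 h2))

def w : Set P := {p | p.1 = A ∨ p.1 = be ∨ p.1 = T}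

theorem w_closed : cl w = w := by
  rw [closed_iff]
  intro x y p hi hx hy
  cases hi <;> simp_all [w]

theorem w_int : cl wᶜ ⊆ {p | p.1 = al ∨ p.1 = B ∨ p.1 = T} := by
  have : cl {p : P | p.1 = al ∨ p.1 = B ∨ p.1 = T} = {p | p.1 = al ∨ p.1 = B ∨ p.1 = T} := by
    rw [closed_iff]
    intro x y p hi hx hy
    cases hi <;> simp_all
  rw [← this]
  refine fun p hp => mono ?_ hp
  rintro ⟨k, n⟩ h
  cases k <;> simp_all [w]

theorem w_reg : w ∈ Reg cl := by
  refine Set.Subset.antisymm ?_ fun p hp => ?_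
  · have h1 : ∀ n, Cl (cl wᶜ)ᶜ (A, n) := fun n => .base _ fun h => by simpa using w_int h
    have h2 : ∀ n, Cl (cl wᶜ)ᶜ (be, n) := fun n => .base _ fun h => by simpa using w_int h
    rintro ⟨k, n⟩ (h | h | h) <;> obtain rfl : k = _ := h
    · exact h1 n
    · exact h2 n
    · exact Cl.step _ _ _ (.t1 n) (h1 n) (h2 n)
  · rw [← w_closed]
    refine mono (u := (cl wᶜ)ᶜ) (fun q hq => by_contra fun h => ?_) hp
    exact hq (Cl.base q h)

theorem result : ∃ (P : Type) (φ : Set P → Set P), IsClosureSpace φ ∧ SemilatticeType φ ∧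
    IsLattice (Clop φ) ∧ Clop φ ≠ Reg φ := by
  refine ⟨P, cl, ⟨fun a p hp => .base p hp, fun a b h p hp => mono h hp, fun a =>
    Set.Subset.antisymm (fun p hp => idem hp) fun p hp => .base p hp, ?_⟩, ⟨fun x => ?_, ord, ?_⟩,
    lattice, fun h => ?_⟩
  · rw [closed_iff]; simp
  · ext p
    simp only [Set.mem_iUnion, Set.mem_ofPred_eq, exists_prop]
    constructor
    · intro hp
      obtain ⟨y, h1, h2, h3, -⟩ := fin hp
      exact ⟨y, ⟨h1, h2⟩, h3⟩
    · rintro ⟨y, ⟨h1, -⟩, h3⟩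
      exact mono h1 h3
  · intro p x hx
    obtain ⟨y, h1, -, h3, h4, h5⟩ := fin hx.1
    obtain rfl : x = y := Set.Subset.antisymm (hx.2 h3 h1) h1
    exact ⟨h4, h5⟩
  · have hw : w ∈ Clop cl := h ▸ w_reg
    exact (closed_iff wᶜ).1 hw.2 _ _ _ (.t2 0) (by simp [w]) (by simp [w]) (by simp [w])

end Pool.Agent.Results.MP_df2171_co.NotReg
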